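import Pool.Agent.N967.P.PQ
import Pool.Agent.N967.LowB

set_option autoImplicit false

/-!
# Baez-Duarte's distance for general L-functions: a zero to the right of the critical line

Port of `Pool/Agent/N967/G/Off.lean` (helper967) to poles at the points `1 - i sh_j`.
-/

namespace Pool.Agent.N967.P

open Complex MeasureTheory Filter Topology Set
open Pool.Agent.N967.G (KR KerB S_real S_kern S_opt S_lf S_kerL S_sh)

namespace Off

open Pool.Agent.N967 (half_ne_one norm_half_sq norm_half_sub_sq DP_norm_le DP_differentiable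
  ne_zero_of_re decay_lin shift_inf cauchy_int cs)

variable (D : Dat)

/-- `(1 - L(s) A(s)) P(s) / (Q(s) s)` -/
noncomputable def Gq (N : ℕ) (a : ℕ → ℂ) (s : ℂ) : ℂ :=
  (D.P s - D.Zs s * DP N a s) / (D.Q s * s)

variable {D}

lemma Gq_diff (hb : Base D) (N : ℕ) (a : ℕ → ℂ) {s : ℂ} (hs : 0 < s.re) :
    DifferentiableAt ℂ (Gq D N a) s := by
  unfold Gq
  have h1 : DifferentiableAt ℂ D.Zs s := hb.diff s hs
  have h2 : DifferentiableAt ℂ (DP N a) s := DP_differentiable N a s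
  have h3 : DifferentiableAt ℂ D.P s := P_diff s
  have h4 : DifferentiableAt ℂ D.Q s := Q_diff s
  exact (h3.sub (h1.mul h2)).div (h4.mul differentiableAt_id) (mul_ne_zero (Q_ne hs) (ne_zero_of_re hs))

lemma Gq_line (N : ℕ) (a : ℕ → ℂ) (t : ℝ) : ‖Gq D N a (1 / 2 + t * I)‖ ^ 2 = D.ig N a t := by
  unfold Gq Dat.ig Dat.L
  have hne : D.P (1 / 2 + (t : ℂ) * I) ≠ 0 := P_ne (by norm_num)
  have h2 : D.P (1 / 2 + (t : ℂ) * I) - D.Zs (1 / 2 + t * I) * DP N a (1 / 2 + t * I) =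
      D.P (1 / 2 + (t : ℂ) * I) *
        (1 - D.Zs (1 / 2 + t * I) / D.P (1 / 2 + (t : ℂ) * I) * DP N a (1 / 2 + t * I)) := by
    rw [mul_sub, mul_one]
    congr 1
    rw [← mul_assoc, mul_div_cancel₀ _ hne]
  have hp : (0:ℝ) < 1 / 4 + t ^ 2 := by positivity
  have hq : 0 < ‖D.Q (1 / 2 + (t : ℂ) * I)‖ := norm_pos_iff.2 (Q_ne (by norm_num))
  have e2 : ‖(1 / 2 + (t : ℂ) * I)‖ ^ 2 = 1 / 4 + t ^ 2 := norm_half_sq t
  rw [h2, norm_div, norm_mul, norm_mul, div_pow, mul_pow, mul_pow, e2, P_half']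
  rw [mul_div_mul_left _ _ (pow_ne_zero _ hq.ne')]

lemma ig_continuous (hb : Base D) (N : ℕ) (a : ℕ → ℂ) : Continuous (D.ig N a) := by
  have h : D.ig N a = fun t : ℝ => ‖Gq D N a (1 / 2 + t * I)‖ ^ 2 := by
    funext t
    exact (Gq_line N a t).symm
  rw [h]
  refine Continuous.pow (Continuous.norm ?_) 2
  rw [continuous_iff_continuousAt]
  intro t
  have h2 : ContinuousAt (Gq D N a) (1 / 2 + t * I) :=
    (Gq_diff hb N a (by simp)).continuousAt
  exact ContinuousAt.comp (f := fun t : ℝ => (1 / 2 : ℂ) + t * I) h2 (by fun_prop)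

lemma ig_nonneg (N : ℕ) (a : ℕ → ℂ) (t : ℝ) : 0 ≤ D.ig N a t := by
  unfold Dat.ig
  positivity

lemma one_add_le {s : ℂ} (hs : 0 ≤ s.re) : 1 + ‖s‖ ≤ 2 * ‖s + 1‖ := by
  have h1 : 1 ≤ ‖s + 1‖ := by
    have h2 := (le_abs_self _).trans (Complex.abs_re_le_norm (s + 1))
    have h3 : (s + 1).re = s.re + 1 := by simp
    linarith
  have h2 : ‖s‖ ≤ ‖s + 1‖ := by
    apply le_of_sq_le_sq _ (norm_nonneg _)
    rw [← Complex.normSq_eq_norm_sq, ← Complex.normSq_eq_norm_sq, Complex.normSq_apply,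
      Complex.normSq_apply]
    simp only [add_re, one_re, add_im, one_im, add_zero]
    nlinarith
  linarith

/-- polynomial growth with exponent `K` that depends only on `D` -/
lemma Gq_bound (hb : Base D) : ∃ K : ℕ, ∀ (N : ℕ) (a : ℕ → ℂ), ∃ B : ℝ, 0 ≤ B ∧
    ∀ s : ℂ, 1 / 4 ≤ s.re → ‖Gq D N a s‖ ≤ B * ‖s + 1‖ ^ K := by
  obtain ⟨C, k, hC, hk⟩ := hb.growth
  refine ⟨D.p + k, fun N a => ?_⟩
  set M := ∑ n ∈ Finset.Icc 1 N, ‖a n‖ with hM
  have hM0 : 0 ≤ M := Finset.sum_nonneg fun n _ => norm_nonneg _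
  have hc : 0 < D.c := c_pos
  refine ⟨4 ^ (D.p + 1) * (2 ^ (D.p + k) * (D.c + C * M)), by positivity, fun s hs => ?_⟩
  have h1 : 1 / 4 ≤ ‖s‖ := by
    have := (le_abs_self _).trans (Complex.abs_re_le_norm s)
    linarith
  have h2 := hk s hs
  have h3 : ‖DP N a s‖ ≤ M := DP_norm_le N a (by linarith)
  have h5 : 1 ≤ 1 + ‖s‖ := by linarith [norm_nonneg s]
  have h6 := one_add_le (s := s) (by linarith)
  have e1 : ‖D.P s‖ ≤ D.c * (1 + ‖s‖) ^ (D.p + k) := by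
    refine (P_le s).trans ?_
    have := pow_le_pow_right₀ h5 (show D.p ≤ D.p + k by omega)
    gcongr
  have e2 : ‖D.Zs s * DP N a s‖ ≤ C * M * (1 + ‖s‖) ^ (D.p + k) := by
    rw [norm_mul]
    calc ‖D.Zs s‖ * ‖DP N a s‖ ≤ (C * (1 + ‖s‖) ^ k) * M := by gcongr
      _ = C * M * (1 + ‖s‖) ^ k := by ring
      _ ≤ C * M * (1 + ‖s‖) ^ (D.p + k) := by
          have := pow_le_pow_right₀ h5 (show k ≤ D.p + k by omega)
          gcongr
  have e3 : (1 + ‖s‖) ^ (D.p + k) ≤ 2 ^ (D.p + k) * ‖s + 1‖ ^ (D.p + k) := by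
    rw [← mul_pow]
    gcongr
  have hQ : (1 / 4 : ℝ) ^ D.p ≤ ‖D.Q s‖ := Q_ge (by norm_num) hs
  have e4 : (1 : ℝ) ≤ 4 ^ (D.p + 1) * (‖D.Q s‖ * ‖s‖) := by
    have h7 : (1 / 4 : ℝ) ^ D.p * (1 / 4) ≤ ‖D.Q s‖ * ‖s‖ := by gcongr
    have h8 : (4 : ℝ) ^ (D.p + 1) * ((1 / 4 : ℝ) ^ D.p * (1 / 4)) = 1 := by
      rw [← pow_succ, ← mul_pow]
      norm_num
    calc (1 : ℝ) = 4 ^ (D.p + 1) * ((1 / 4 : ℝ) ^ D.p * (1 / 4)) := h8.symm
      _ ≤ _ := by gcongr
  have hsp : 0 < ‖D.Q s‖ * ‖s‖ := mul_pos (lt_of_lt_of_le (by positivity) hQ) (by linarith)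
  unfold Gq
  rw [norm_div, norm_mul (D.Q s), div_le_iff₀ hsp]
  have e5 : ‖D.P s - D.Zs s * DP N a s‖ ≤
      2 ^ (D.p + k) * (D.c + C * M) * ‖s + 1‖ ^ (D.p + k) := by
    calc ‖D.P s - D.Zs s * DP N a s‖ ≤ ‖D.P s‖ + ‖D.Zs s * DP N a s‖ :=
          norm_sub_le _ _
      _ ≤ D.c * (1 + ‖s‖) ^ (D.p + k) + C * M * (1 + ‖s‖) ^ (D.p + k) := by gcongr
      _ = (D.c + C * M) * (1 + ‖s‖) ^ (D.p + k) := by ring
      _ ≤ (D.c + C * M) * (2 ^ (D.p + k) * ‖s + 1‖ ^ (D.p + k)) := by gcongr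
      _ = _ := by ring
  calc ‖D.P s - D.Zs s * DP N a s‖
      ≤ 2 ^ (D.p + k) * (D.c + C * M) * ‖s + 1‖ ^ (D.p + k) := e5
    _ = 1 * (2 ^ (D.p + k) * (D.c + C * M) * ‖s + 1‖ ^ (D.p + k)) := (one_mul _).symm
    _ ≤ (4 ^ (D.p + 1) * (‖D.Q s‖ * ‖s‖)) * (2 ^ (D.p + k) * (D.c + C * M) * ‖s + 1‖ ^ (D.p + k)) := by
        gcongr
    _ = _ := by ring

/-- the value at a point to the right of the critical line -/
lemma cau (hb : Base D) (hs : Pool.Agent.N967.S_shift) : ∃ K : ℕ, ∀ (N : ℕ) (a : ℕ → ℂ) (s0 : ℂ),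
    1 / 2 < s0.re → Integrable (D.ig N a) →
    4 * Real.pi * (s0.re - 1 / 2) * ‖Gq D N a s0 * ((s0 + 1)⁻¹) ^ (K + 1)‖ ^ 2 ≤
      ∫ t : ℝ, D.ig N a t := by
  obtain ⟨K, hK⟩ := Gq_bound hb
  refine ⟨K, fun N a s0 h0 hint => ?_⟩
  set α : ℝ := 1 / 2 - s0.re with hα
  have hα0 : α < 0 := by linarith
  obtain ⟨B, hB0, hB⟩ := hK N a
  set F : ℂ → ℂ := fun z => Gq D N a (z + s0) * ((z + s0 + 1)⁻¹) ^ (K + 1) with hF
  have hne : ∀ z : ℂ, α ≤ z.re → z + s0 + 1 ≠ 0 := by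
    intro z hz
    refine ne_zero_of_re ?_
    simp only [add_re, one_re]
    linarith
  have hd : ∀ z : ℂ, α ≤ z.re → DifferentiableAt ℂ F z := by
    intro z hz
    have h1 : DifferentiableAt ℂ (Gq D N a) (z + s0) := by
      refine Gq_diff hb N a ?_
      simp only [add_re]
      linarith
    have h2 : DifferentiableAt ℂ (fun z => Gq D N a (z + s0)) z :=
      DifferentiableAt.comp (g := Gq D N a) (f := fun z : ℂ => z + s0) z h1 (by fun_prop)
    have h3 : DifferentiableAt ℂ (fun z : ℂ => z + s0 + 1) z := by fun_prop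
    exact h2.mul ((h3.inv (hne z hz)).pow (K + 1))
  have hge1 : ∀ z : ℂ, α ≤ z.re → 1 ≤ ‖z + s0 + 1‖ := by
    intro z hz
    have h2 := (le_abs_self _).trans (Complex.abs_re_le_norm (z + s0 + 1))
    have h3 : (z + s0 + 1).re = z.re + s0.re + 1 := by simp
    linarith
  have hBd : ∀ z : ℂ, α ≤ z.re → ‖F z‖ ≤ B * (2 + |s0.im|) * (1 + |z.im|) ^ (-(1 / 2 : ℝ)) := by
    intro z hz
    have h1 : 1 / 2 ≤ (z + s0).re := by
      simp only [add_re]
      linarith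
    have h2 := decay_lin h1
    have h3 := hB (z + s0) (by linarith)
    have h4 : 0 < ‖z + s0 + 1‖ := by linarith [hge1 z hz]
    rw [hF]
    simp only
    rw [norm_mul, norm_pow, norm_inv, mul_assoc]
    calc ‖Gq D N a (z + s0)‖ * (‖z + s0 + 1‖⁻¹) ^ (K + 1)
        ≤ (B * ‖z + s0 + 1‖ ^ K) * (‖z + s0 + 1‖⁻¹) ^ (K + 1) := by gcongr
      _ = B * ‖z + s0 + 1‖⁻¹ := by
          rw [pow_succ, inv_pow]
          field_simp
      _ ≤ _ := by gcongr
  have h1 := (shift_inf hs hα0 hd hBd).2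
  -- the functions on the line
  set f : ℝ → ℝ := fun y => ‖Gq D N a (1 / 2 + ((y + s0.im : ℝ) : ℂ) * I)‖ with hf
  set g : ℝ → ℝ := fun y => (‖(α : ℂ) + y * I + s0 + 1‖⁻¹) ^ (K + 1) * ‖(α : ℂ) + y * I‖⁻¹ with hg
  have hpt : ∀ y : ℝ, ‖F (α + y * I) / (α + y * I)‖ = f y * g y := by
    intro y
    have e1 : (α : ℂ) + y * I + s0 = 1 / 2 + ((y + s0.im : ℝ) : ℂ) * I := by
      apply Complex.ext
      · simp [hα]
      · simp
    rw [hF, hf, hg]
    simp only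
    rw [norm_div, norm_mul, norm_pow, norm_inv, e1]
    ring
  have hf2 : ∀ y, f y ^ 2 = D.ig N a (y + s0.im) := fun y => Gq_line N a (y + s0.im)
  have hfi : Integrable (fun y => f y ^ 2) := by
    simp_rw [hf2]
    exact hint.comp_add_right s0.im
  have hfe : ∫ y, f y ^ 2 = ∫ t, D.ig N a t := by
    simp_rw [hf2]
    rw [integral_add_right_eq_self (fun y => D.ig N a y) s0.im]
  have hca := cauchy_int (a := -α) (by linarith) 0
  have hre : ∀ y : ℝ, ((α : ℂ) + y * I).re = α := by intro y; simp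
  have hg2 : ∀ y, g y ^ 2 ≤ ((-α) ^ 2 + (y + 0) ^ 2)⁻¹ := by
    intro y
    have e1 : ‖(α : ℂ) + y * I‖ ^ 2 = (-α) ^ 2 + (y + 0) ^ 2 := by
      rw [← Complex.normSq_eq_norm_sq, Complex.normSq_apply]
      simp
      ring
    have e2 : 1 ≤ ‖(α : ℂ) + y * I + s0 + 1‖ := hge1 _ (hre y).ge
    have e3 : ((‖(α : ℂ) + y * I + s0 + 1‖⁻¹) ^ (K + 1)) ^ 2 ≤ 1 := by
      rw [← pow_mul]
      exact pow_le_one₀ (by positivity) (inv_le_one_of_one_le₀ e2)
    rw [hg]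
    simp only
    rw [mul_pow, inv_pow ‖(α : ℂ) + y * I‖, e1]
    exact mul_le_of_le_one_left (by positivity) e3
  have hα1 : ∀ y : ℝ, (α : ℂ) + y * I ≠ 0 := by
    intro y hy
    have := congrArg Complex.re hy
    simp at this
    linarith
  have hgc : Continuous g := by
    rw [hg]
    refine Continuous.mul (Continuous.pow (Continuous.inv₀ (by fun_prop) fun y => ?_) _)
      (Continuous.inv₀ (by fun_prop) fun y => ?_)
    · rw [norm_ne_zero_iff]
      exact hne _ (by simp)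
    · rw [norm_ne_zero_iff]
      exact hα1 y
  have hgi : Integrable (fun y => g y ^ 2) := by
    refine hca.1.mono' (hgc.pow 2).aestronglyMeasurable
      (Eventually.of_forall fun y => ?_)
    rw [Real.norm_of_nonneg (sq_nonneg _)]
    exact hg2 y
  have hge : ∫ y, g y ^ 2 ≤ Real.pi / (-α) := by
    rw [← hca.2]
    exact integral_mono hgi hca.1 hg2
  have hfc : Continuous f := by
    have hF2 : ∀ y, f y = Real.sqrt (D.ig N a (y + s0.im)) := by
      intro y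
      rw [← hf2, Real.sqrt_sq (norm_nonneg _)]
    have : f = fun y => Real.sqrt (D.ig N a (y + s0.im)) := funext hF2
    rw [this]
    exact ((ig_continuous hb N a).comp (by fun_prop)).sqrt
  have hfgi : Integrable (fun y => f y * g y) := by
    refine ((hfi.add hgi)).mono' (hfc.mul hgc).aestronglyMeasurable (Eventually.of_forall fun y => ?_)
    have hfn : 0 ≤ f y := norm_nonneg _
    have hgn : 0 ≤ g y := by rw [hg]; positivity
    rw [Real.norm_of_nonneg (mul_nonneg hfn hgn)]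
    simp only [Pi.add_apply]
    nlinarith [sq_nonneg (f y - g y)]
  have hcs := cs hfi hgi hfgi
  have hle : 2 * Real.pi * ‖F 0‖ ≤ ∫ y, f y * g y := by
    have e1 : ‖(2 * Real.pi * F 0 : ℂ)‖ = 2 * Real.pi * ‖F 0‖ := by
      rw [norm_mul, norm_mul, Complex.norm_real, Real.norm_of_nonneg Real.pi_pos.le]
      simp
    rw [← e1, ← h1, norm_neg]
    refine (norm_integral_le_integral_norm _).trans (le_of_eq ?_)
    exact integral_congr_ae (Eventually.of_forall hpt)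
  have hF0 : F 0 = Gq D N a s0 * ((s0 + 1)⁻¹) ^ (K + 1) := by
    rw [hF]
    simp only [zero_add]
  have h4 : 0 ≤ ∫ t, D.ig N a t := integral_nonneg fun t => ig_nonneg N a t
  have hfin : (2 * Real.pi * ‖F 0‖) ^ 2 ≤ (∫ t, D.ig N a t) * (Real.pi / (-α)) := by
    have h3 : (2 * Real.pi * ‖F 0‖) ^ 2 ≤ (∫ y, f y * g y) ^ 2 :=
      pow_le_pow_left₀ (by positivity) hle 2
    refine h3.trans (hcs.trans ?_)
    rw [hfe]
    exact mul_le_mul_of_nonneg_left hge h4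
  have hαp : 0 < -α := by linarith
  have e3 : s0.re - 1 / 2 = -α := by rw [hα]; ring
  rw [← hF0, e3]
  have hpi : 0 < Real.pi := Real.pi_pos
  have h6 : (2 * Real.pi * ‖F 0‖) ^ 2 * (-α) ≤ (∫ t, D.ig N a t) * Real.pi := by
    have := mul_le_mul_of_nonneg_right hfin hαp.le
    rwa [mul_assoc (∫ t, D.ig N a t), div_mul_cancel₀ _ hαp.ne'] at this
  have h7 : Real.pi * (4 * Real.pi * (-α) * ‖F 0‖ ^ 2) ≤ Real.pi * ∫ t, D.ig N a t := by
    have e : Real.pi * (4 * Real.pi * (-α) * ‖F 0‖ ^ 2) = (2 * Real.pi * ‖F 0‖) ^ 2 * (-α) := by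
      ring
    rw [e, mul_comm Real.pi (∫ t, D.ig N a t)]
    exact h6
  exact le_of_mul_le_mul_left h7 hpi

end Off

open Off in
/-- a zero to the right of the critical line -/
theorem off {D : Dat} (hb : Base D) (hs : Pool.Agent.N967.S_shift) : S_off D := by
  intro ρ hre hρ
  obtain ⟨K, hK⟩ := Off.cau hb hs
  have hρ0 : ρ ≠ 0 := Pool.Agent.N967.ne_zero_of_re (by linarith)
  have hρp : D.P ρ ≠ 0 := by
    intro h0
    obtain ⟨j, hj⟩ := P_zero h0
    exact hb.one j (hj ▸ hρ)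
  have hρq : D.Q ρ ≠ 0 := Q_ne (by linarith)
  have hρ1 : ρ + 1 ≠ 0 := by
    refine Pool.Agent.N967.ne_zero_of_re ?_
    simp only [add_re, one_re]
    linarith
  have hG : ∀ (N : ℕ) (a : ℕ → ℂ), Gq D N a ρ = D.P ρ / (D.Q ρ * ρ) := by
    intro N a
    unfold Gq
    rw [hρ, zero_mul, sub_zero]
  have hg : 0 < ‖D.P ρ / (D.Q ρ * ρ) * ((ρ + 1)⁻¹) ^ (K + 1)‖ := by
    rw [norm_pos_iff]
    exact mul_ne_zero (div_ne_zero hρp (mul_ne_zero hρq hρ0)) (pow_ne_zero _ (inv_ne_zero hρ1))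
  refine ⟨4 * Real.pi * (ρ.re - 1 / 2) *
    ‖D.P ρ / (D.Q ρ * ρ) * ((ρ + 1)⁻¹) ^ (K + 1)‖ ^ 2, ?_, fun N a => ?_⟩
  · have : 0 < ρ.re - 1 / 2 := by linarith
    have hpi : 0 < Real.pi := Real.pi_pos
    positivity
  · by_cases htop : ∫⁻ t : ℝ, ENNReal.ofReal (D.ig N a t) = ⊤
    · rw [htop]
      exact le_top
    · have hint : Integrable (D.ig N a) := by
        refine ⟨(Off.ig_continuous hb N a).aestronglyMeasurable, ?_⟩
        rw [hasFiniteIntegral_iff_ofReal (Eventually.of_forall fun t => ig_nonneg N a t)]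
        exact lt_top_iff_ne_top.2 htop
      rw [← ofReal_integral_eq_lintegral_ofReal hint (Eventually.of_forall fun t => ig_nonneg N a t)]
      apply ENNReal.ofReal_le_ofReal
      have h := hK N a ρ hre hint
      rw [hG] at h
      exact h

end Pool.Agent.N967.P
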